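import Mathlib
import Pool.Agent.V11191.NC.One

/-!
# MP_944d6d_mp: reversible number-conserving three-state cellular automata, von Neumann
neighbourhood, in every dimension
-/

set_option autoImplicit false

namespace Pool.Agent.Results.MP_944d6d_mp.AllDimensions

open Pool.Agent.V11191.NC

/-- The von Neumann neighbourhood (`2d+1` cells): `none` is the cell itself, `some (i, true)` is
`+eᵢ` and `some (i, false)` is `-eᵢ`. -/
abbrev Nb (d : ℕ) : Type := Option (Fin d × Bool)

/-- The displacement of a neighbour, in `G^d` (`G = ℤ` or `G = ℤ/n`). -/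
def off {d : ℕ} (G : Type) [AddCommGroupWithOne G] : Nb d → (Fin d → G)
  | none => 0
  | some (i, true) => Pi.single i 1
  | some (i, false) => -Pi.single i 1

/-- The global map on configurations `G^d → {0,1,2}` of the cellular automaton with local rule
`f`. -/
def glob {d : ℕ} (f : (Nb d → Fin 3) → Fin 3) (G : Type) [AddCommGroupWithOne G]
    (x : (Fin d → G) → Fin 3) (v : Fin d → G) : Fin 3 :=
  f fun u => x (v + off G u)

/-- Number conservation: for every spatially periodic configuration (viewed on the torus
`(ℤ/n)^d`, for every `n ≥ 1`), the sum of the states is preserved. -/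
def NumberConserving {d : ℕ} (f : (Nb d → Fin 3) → Fin 3) : Prop :=
  ∀ (n : ℕ) [NeZero n] (x : (Fin d → ZMod n) → Fin 3),
    ∑ v, (glob f (ZMod n) x v).val = ∑ v, (x v).val

/-- Reversibility: the global map on `ℤ^d` is a bijection. -/
def Reversible {d : ℕ} (f : (Nb d → Fin 3) → Fin 3) : Prop := Function.Bijective (glob f ℤ)

/-- Trivial automata: the identity or a unit shift. -/
def Trivial {d : ℕ} (f : (Nb d → Fin 3) → Fin 3) : Prop :=
  ∃ u : Nb d, ∀ (x : (Fin d → ℤ) → Fin 3) (v : Fin d → ℤ), glob f ℤ x v = x (v + off ℤ u)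

/-! ### Geometry of the neighbourhood on the torus of side 12 -/

section geometry

variable {d : ℕ}

/-- displacement on the torus -/
def pos (u : Nb d) : Fin d → ZMod 12 := off (ZMod 12) u

/-- opposite neighbour -/
def neg : Nb d → Nb d
  | none => none
  | some (i, b) => some (i, !b)

lemma pos_none : pos (none : Nb d) = 0 := rfl

lemma pos_neg (u : Nb d) : pos (neg u) = -pos u := by
  rcases u with _ | ⟨i, b⟩
  · simp [pos, neg, off]
  · cases b <;> simp [pos, neg, off]

lemma neg_neg' (u : Nb d) : neg (neg u) = u := by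
  rcases u with _ | ⟨i, b⟩
  · rfl
  · cases b <;> rfl

lemma neg_none : neg (none : Nb d) = none := rfl

lemma neg_inj {u v : Nb d} (h : neg u = neg v) : u = v := by
  rw [← neg_neg' u, h, neg_neg']

lemma neg_ne_none {u : Nb d} (h : u ≠ none) : neg u ≠ none := fun h' => h (neg_inj (h'.trans rfl))

lemma neg_ne_self {u : Nb d} (h : u ≠ none) : neg u ≠ u := by
  rcases u with _ | ⟨i, b⟩
  · exact absurd rfl h
  · cases b <;> simp [neg]

lemma pos_apply_true (i : Fin d) (j : Fin d) :
    pos (some (i, true)) j = if j = i then 1 else 0 := by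
  simp [pos, off, Pi.single_apply]

lemma pos_apply_false (i : Fin d) (j : Fin d) :
    pos (some (i, false)) j = if j = i then -1 else 0 := by
  by_cases h : j = i <;> simp [pos, off, h]

lemma pos_values (u : Nb d) (i : Fin d) :
    (pos u i = 0 ∧ u ≠ some (i, true) ∧ u ≠ some (i, false)) ∨
      (pos u i = 1 ∧ u = some (i, true)) ∨ (pos u i = -1 ∧ u = some (i, false)) := by
  rcases u with _ | ⟨j, b⟩
  · left; exact ⟨rfl, by simp, by simp⟩
  · by_cases h : i = j
    · subst h
      cases b
      · right; right; exact ⟨by rw [pos_apply_false, if_pos rfl], rfl⟩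
      · right; left; exact ⟨by rw [pos_apply_true, if_pos rfl], rfl⟩
    · left
      cases b
      · exact ⟨by rw [pos_apply_false, if_neg h], by simp, by simpa using Ne.symm h⟩
      · exact ⟨by rw [pos_apply_true, if_neg h], by simpa using Ne.symm h, by simp⟩

lemma pos_eq_one {u : Nb d} {i : Fin d} (h : pos u i = 1) : u = some (i, true) := by
  rcases pos_values u i with h' | h' | h'
  · rw [h'.1] at h; exact absurd h (by decide)
  · exact h'.2
  · rw [h'.1] at h; exact absurd h (by decide)

lemma pos_eq_neg_one {u : Nb d} {i : Fin d} (h : pos u i = -1) : u = some (i, false) := by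
  rcases pos_values u i with h' | h' | h'
  · rw [h'.1] at h; exact absurd h (by decide)
  · rw [h'.1] at h; exact absurd h (by decide)
  · exact h'.2

lemma sidon_aux : ∀ p q r : ZMod 12, (p = 0 ∨ p = 1 ∨ p = -1) → (q = 0 ∨ q = 1 ∨ q = -1) →
    (r = 0 ∨ r = 1 ∨ r = -1) → (p + q = r + 1 → r ≠ -1 → (p = 1 ∨ q = 1)) ∧
    (p + q = r + -1 → r ≠ 1 → (p = -1 ∨ q = -1)) := by decide

lemma pos_values' (u : Nb d) (i : Fin d) : pos u i = 0 ∨ pos u i = 1 ∨ pos u i = -1 := by
  rcases pos_values u i with h | h | h
  · exact Or.inl h.1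
  · exact Or.inr (Or.inl h.1)
  · exact Or.inr (Or.inr h.1)

lemma sidon {a b a' b' : Nb d} (h : pos a + pos b = pos a' + pos b') (h0 : pos a' + pos b' ≠ 0)
    (hb : b' ≠ none) : b' = a ∨ b' = b := by
  rcases b' with _ | ⟨i, s⟩
  · exact absurd rfl hb
  have hi := congrFun h i
  simp only [Pi.add_apply] at hi
  have aux := sidon_aux (pos a i) (pos b i) (pos a' i) (pos_values' a i) (pos_values' b i)
    (pos_values' a' i)
  cases s
  · rw [pos_apply_false, if_pos rfl] at hi
    have hne : pos a' i ≠ 1 := by
      intro h1
      have := pos_eq_one h1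
      subst this
      apply h0
      have e : (some (i, false) : Nb d) = neg (some (i, true)) := rfl
      rw [e, pos_neg, add_neg_cancel]
    rcases aux.2 hi hne with h1 | h1
    · left; exact (pos_eq_neg_one h1).symm
    · right; exact (pos_eq_neg_one h1).symm
  · rw [pos_apply_true, if_pos rfl] at hi
    have hne : pos a' i ≠ -1 := by
      intro h1
      have := pos_eq_neg_one h1
      subst this
      apply h0
      have e : (some (i, true) : Nb d) = neg (some (i, false)) := rfl
      rw [e, pos_neg, add_neg_cancel]
    rcases aux.1 hi hne with h1 | h1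
    · left; exact (pos_eq_one h1).symm
    · right; exact (pos_eq_one h1).symm

lemma pos_ne_zero {u : Nb d} (h : u ≠ none) : pos u ≠ 0 := by
  rcases u with _ | ⟨i, b⟩
  · exact absurd rfl h
  · intro h0
    have := congrFun h0 i
    cases b
    · rw [pos_apply_false, if_pos rfl, Pi.zero_apply] at this
      exact absurd this (by decide)
    · rw [pos_apply_true, if_pos rfl, Pi.zero_apply] at this
      exact absurd this (by decide)

lemma pos_injective : Function.Injective (pos : Nb d → (Fin d → ZMod 12)) := by
  intro u v h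
  by_cases hv : v = none
  · subst hv
    by_contra hu
    exact pos_ne_zero hu h
  · have h1 : pos u + pos (none : Nb d) = pos (none : Nb d) + pos v := by
      rw [pos_none, add_zero, zero_add, h]
    rcases sidon h1 (by rw [pos_none, zero_add]; exact pos_ne_zero hv) hv with h2 | h2
    · exact h2.symm
    · exact absurd h2 hv

/-- If a nonzero translate of the neighbourhood sees the distinct cells `k₁, k₂`, then it sees
`k₂` as its neighbour `-k₁`. -/
lemma visible {v : Fin d → ZMod 12} (hv : v ≠ 0) {k1 k2 t1 t2 : Nb d} (hk : k1 ≠ k2)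
    (h1 : v + pos t1 = pos k1) (h2 : v + pos t2 = pos k2) : t2 = neg k1 := by
  have e1 : pos k1 + pos (neg t1) = v := by rw [← h1, pos_neg]; abel
  have e2 : pos k2 + pos (neg t2) = v := by rw [← h2, pos_neg]; abel
  by_cases hk1 : k1 = none
  · subst hk1
    have h3 : pos (none : Nb d) + pos (neg t1) = pos (neg t2) + pos k2 := by
      rw [e1, add_comm, e2]
    have h4 : pos (neg t2) + pos k2 ≠ 0 := by rw [add_comm, e2]; exact hv
    rcases sidon h3 h4 hk.symm with h5 | h5
    · exact absurd h5 hk.symm
    · rw [pos_none, zero_add] at e1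
      have h6 : pos (neg t2) = 0 := by
        have : pos k2 = v := by rw [h5, e1]
        rw [this] at e2
        exact add_left_cancel (e2.trans (add_zero v).symm)
      have h7 : neg t2 = none := by
        by_contra hne
        exact pos_ne_zero hne h6
      rw [neg_none, ← neg_neg' t2, h7]; rfl
  · have h3 : pos k2 + pos (neg t2) = pos (neg t1) + pos k1 := by
      rw [e2, add_comm, e1]
    have h4 : pos (neg t1) + pos k1 ≠ 0 := by rw [add_comm, e1]; exact hv
    rcases sidon h3 h4 hk1 with h5 | h5
    · exact absurd h5 hk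
    · rw [h5, neg_neg']

end geometry

/-! ### Local rules on the torus of side 12 -/

section rule

variable {d : ℕ}

/-- The torus. -/
abbrev T (d : ℕ) : Type := Fin d → ZMod 12

/-- The local view of a configuration at `v`. -/
def view (x : T d → Fin 3) (v : T d) : Nb d → Fin 3 := fun u => x (v + pos u)

lemma glob_eq (f : (Nb d → Fin 3) → Fin 3) (x : T d → Fin 3) (v : T d) :
    glob f (ZMod 12) x v = f (view x v) := rfl

/-- patterns with one, two, three cells -/
def w1 (k : Nb d) (a : Fin 3) : Nb d → Fin 3 := fun u => if u = k then a else 0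
def w2 (k l : Nb d) (a b : Fin 3) : Nb d → Fin 3 := fun u => if u = k then a else if u = l then b
  else 0
def w3 (k l m : Nb d) (a b c : Fin 3) : Nb d → Fin 3 := fun u => if u = k then a else
  if u = l then b else if u = m then c else 0

/-- configurations with one, two, three cells -/
def x1 (k : Nb d) (a : Fin 3) : T d → Fin 3 := fun p => if p = pos k then a else 0
def x2 (k l : Nb d) (a b : Fin 3) : T d → Fin 3 := fun p => if p = pos k then a else
  if p = pos l then b else 0
def x3 (k l m : Nb d) (a b c : Fin 3) : T d → Fin 3 := fun p => if p = pos k then a else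
  if p = pos l then b else if p = pos m then c else 0

lemma sum_x1 (k : Nb d) (a : Fin 3) : ∑ v : T d, ((x1 k a v).val : ℤ) = a.val := by
  rw [Fintype.sum_eq_single (pos k)]
  · simp [x1]
  · intro v hv; simp [x1, hv]

lemma sum_x2 {k l : Nb d} (hkl : k ≠ l) (a b : Fin 3) :
    ∑ v : T d, ((x2 k l a b v).val : ℤ) = (a.val : ℤ) + b.val := by
  have e : ∀ v : T d, ((x2 k l a b v).val : ℤ) = (x1 k a v).val + (x1 l b v).val := by
    intro v
    unfold x2 x1
    by_cases h1 : v = pos k
    · have h2 : pos k ≠ pos l := fun h => hkl (pos_injective h)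
      simp [h1, h2]
    · simp [h1]
  simp_rw [e]
  rw [Finset.sum_add_distrib, sum_x1, sum_x1]

lemma sum_x3 {k l m : Nb d} (hkl : k ≠ l) (hkm : k ≠ m) (hlm : l ≠ m) (a b c : Fin 3) :
    ∑ v : T d, ((x3 k l m a b c v).val : ℤ) = (a.val : ℤ) + b.val + c.val := by
  have e : ∀ v : T d, ((x3 k l m a b c v).val : ℤ) =
      (x1 k a v).val + (x2 l m b c v).val := by
    intro v
    unfold x3 x2 x1
    by_cases h1 : v = pos k
    · have h2 : pos k ≠ pos l := fun h => hkl (pos_injective h)
      have h3 : pos k ≠ pos m := fun h => hkm (pos_injective h)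
      simp [h1, h2, h3]
    · simp [h1]
  simp_rw [e]
  rw [Finset.sum_add_distrib, sum_x1, sum_x2 hlm]
  ring

lemma view_x1_zero (k : Nb d) (a : Fin 3) : view (x1 k a) 0 = w1 k a := by
  funext u
  simp only [view, x1, w1, zero_add, pos_injective.eq_iff]

lemma view_x2_zero (k l : Nb d) (a b : Fin 3) : view (x2 k l a b) 0 = w2 k l a b := by
  funext u
  simp only [view, x2, w2, zero_add, pos_injective.eq_iff]

lemma view_x3_zero (k l m : Nb d) (a b c : Fin 3) : view (x3 k l m a b c) 0 = w3 k l m a b c := by
  funext u
  simp only [view, x3, w3, zero_add, pos_injective.eq_iff]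

variable {f : (Nb d → Fin 3) → Fin 3}

/-- number conservation on the torus of side 12, in `ℤ` -/
def NC12 (f : (Nb d → Fin 3) → Fin 3) : Prop :=
  ∀ x : T d → Fin 3, ∑ v, ((f (view x v)).val : ℤ) = ∑ v, ((x v).val : ℤ)

lemma f_zero (h : NC12 f) : f (fun _ => 0) = 0 := by
  have h1 := h (fun _ => 0)
  have e : ∀ v : T d, view (fun _ => (0 : Fin 3)) v = fun _ => 0 := fun v => rfl
  simp only [e, Fin.val_zero, Nat.cast_zero, Finset.sum_const_zero, Finset.sum_const,
    Finset.card_univ, nsmul_eq_mul, mul_eq_zero] at h1
  rcases h1 with h1 | h1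
  · exact absurd h1 (by exact_mod_cast Fintype.card_ne_zero)
  · exact_mod_cast h1

/-- single-cell conservation -/
lemma nc1 (h : NC12 f) (a : Fin 3) : ∑ u : Nb d, ((f (w1 u a)).val : ℤ) = a.val := by
  have h1 := h (x1 none a)
  rw [sum_x1] at h1
  rw [← h1]
  refine Fintype.sum_of_injective (fun u : Nb d => -pos u) (fun u v huv =>
    pos_injective (neg_injective huv)) _ _ ?_ ?_
  · intro v hv
    have e : view (x1 none a) v = fun _ => 0 := by
      funext u
      unfold view x1
      rw [if_neg]
      intro h2
      apply hv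
      exact ⟨u, by rw [pos_none] at h2; exact (eq_neg_of_add_eq_zero_left h2).symm⟩
    rw [e, f_zero h]; rfl
  · intro u
    have e : view (x1 none a) (-pos u) = w1 u a := by
      funext t
      simp only [view, x1, w1, pos_none, neg_add_eq_zero, pos_injective.eq_iff, eq_comm (a := u)]
    rw [e]

/-- Interaction of two cells. -/
def psi (f : (Nb d → Fin 3) → Fin 3) (k l : Nb d) (a b : Fin 3) : ℤ :=
  (f (w2 k l a b)).val - (f (w1 k a)).val - (f (w1 l b)).val

lemma w2_comm {k l : Nb d} (h : k ≠ l) (a b : Fin 3) : w2 k l a b = w2 l k b a := by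
  funext u
  unfold w2
  by_cases h1 : u = k
  · subst h1; rw [if_pos rfl, if_neg h, if_pos rfl]
  · rw [if_neg h1]
    by_cases h2 : u = l
    · rw [if_pos h2, if_pos h2]
    · rw [if_neg h2, if_neg h2, if_neg h1]

lemma psi_comm {k l : Nb d} (h : k ≠ l) (a b : Fin 3) : psi f k l a b = psi f l k b a := by
  unfold psi; rw [w2_comm h]; ring

lemma view_eq_zero {k : Nb d} {a : Fin 3} {v : T d} (h : ∀ t, v + pos t ≠ pos k) :
    view (x1 k a) v = fun _ => 0 := by
  funext t; unfold view x1; rw [if_neg (h t)]

/-- two-cell conservation -/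
lemma nc2 (h : NC12 f) {k l : Nb d} (hkl : k ≠ l) (a b : Fin 3) :
    psi f k l a b + psi f (neg l) (neg k) a b = 0 := by
  set D : T d → ℤ := fun v => ((f (view (x2 k l a b) v)).val : ℤ) -
    (f (view (x1 k a) v)).val - (f (view (x1 l b) v)).val with hD
  have hsum : ∑ v, D v = 0 := by
    simp only [hD]
    rw [Finset.sum_sub_distrib, Finset.sum_sub_distrib, h, h, h, sum_x2 hkl, sum_x1, sum_x1]
    ring
  have hD0 : D 0 = psi f k l a b := by
    simp only [hD, psi, view_x1_zero, view_x2_zero]
  have hz := f_zero h
  -- cells that do not see both particles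
  have hk : ∀ v : T d, (∀ t, v + pos t ≠ pos k) → D v = 0 := by
    intro v hv
    have e1 : view (x2 k l a b) v = view (x1 l b) v := by
      funext t; unfold view x2 x1; rw [if_neg (hv t)]
    simp only [hD, e1, view_eq_zero hv, hz, Fin.val_zero]
    push_cast; ring
  have hl : ∀ v : T d, (∀ t, v + pos t ≠ pos l) → D v = 0 := by
    intro v hv
    have e1 : view (x2 k l a b) v = view (x1 k a) v := by
      funext t; unfold view x2 x1
      by_cases h1 : v + pos t = pos k
      · rw [if_pos h1, if_pos h1]
      · rw [if_neg h1, if_neg h1, if_neg (hv t)]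
    simp only [hD, e1, view_eq_zero hv, hz, Fin.val_zero]
    push_cast; ring
  have hother : ∀ v : T d, v ≠ 0 → v ≠ pos k + pos l → D v = 0 := by
    intro v hv0 hv1
    by_cases h1 : ∃ t, v + pos t = pos k
    · obtain ⟨t1, ht1⟩ := h1
      apply hl
      intro t2 ht2
      have h3 := visible hv0 hkl ht1 ht2
      have h4 := visible hv0 hkl.symm ht2 ht1
      apply hv1
      rw [h4, pos_neg] at ht1
      rw [← ht1]; abel
    · push Not at h1
      exact hk v h1
  by_cases hv : pos k + pos l = 0
  · have hnk : neg l = k := by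
      apply pos_injective; rw [pos_neg]; exact (eq_neg_of_add_eq_zero_left hv).symm
    have hnl : neg k = l := by rw [← hnk, neg_neg']
    rw [hnk, hnl]
    have h1 : ∑ v, D v = D 0 := Fintype.sum_eq_single 0 fun v hv0 => hother v hv0 (by rw [hv]; exact hv0)
    rw [h1, hD0] at hsum
    rw [hsum]; ring
  · have h1 : ∑ v, D v = D 0 + D (pos k + pos l) :=
      Fintype.sum_eq_add 0 (pos k + pos l) (Ne.symm hv) fun v hv' => hother v hv'.1 hv'.2
    have h2 : D (pos k + pos l) = psi f (neg l) (neg k) a b := by
      have e1 : ∀ t : Nb d, pos k + pos l + pos t = pos k ↔ t = neg l := by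
        intro t
        rw [add_assoc, add_eq_left, add_comm, ← eq_neg_iff_add_eq_zero, ← pos_neg,
          pos_injective.eq_iff]
      have e2 : ∀ t : Nb d, pos k + pos l + pos t = pos l ↔ t = neg k := by
        intro t
        rw [add_comm (pos k), add_assoc, add_eq_left, add_comm, ← eq_neg_iff_add_eq_zero,
          ← pos_neg, pos_injective.eq_iff]
      have e3 : view (x2 k l a b) (pos k + pos l) = w2 (neg l) (neg k) a b := by
        funext t; simp only [view, x2, w2, e1, e2]
      have e4 : view (x1 k a) (pos k + pos l) = w1 (neg l) a := by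
        funext t; simp only [view, x1, w1, e1]
      have e5 : view (x1 l b) (pos k + pos l) = w1 (neg k) b := by
        funext t; simp only [view, x1, w1, e2]
      simp only [hD, psi, e3, e4, e5]
    rw [← hD0, ← h2, ← h1, hsum]

/-- three-cell conservation: no three-cell interactions -/
lemma nc3 (h : NC12 f) {k l m : Nb d} (hkl : k ≠ l) (hkm : k ≠ m) (hlm : l ≠ m)
    (a b c : Fin 3) : ((f (w3 k l m a b c)).val : ℤ) = (f (w2 k l a b)).val +
      (f (w2 k m a c)).val + (f (w2 l m b c)).val - (f (w1 k a)).val - (f (w1 l b)).val -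
      (f (w1 m c)).val := by
  set D : T d → ℤ := fun v => ((f (view (x3 k l m a b c) v)).val : ℤ) -
    (f (view (x2 k l a b) v)).val - (f (view (x2 k m a c) v)).val -
    (f (view (x2 l m b c) v)).val + (f (view (x1 k a) v)).val + (f (view (x1 l b) v)).val +
    (f (view (x1 m c) v)).val with hD
  have hsum : ∑ v, D v = 0 := by
    simp only [hD]
    rw [Finset.sum_add_distrib, Finset.sum_add_distrib, Finset.sum_add_distrib,
      Finset.sum_sub_distrib, Finset.sum_sub_distrib, Finset.sum_sub_distrib, h, h, h, h, h, h, h,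
      sum_x3 hkl hkm hlm, sum_x2 hkl, sum_x2 hkm, sum_x2 hlm, sum_x1, sum_x1, sum_x1]
    ring
  have hz := f_zero h
  have hD0 : D 0 = ((f (w3 k l m a b c)).val : ℤ) - (f (w2 k l a b)).val -
      (f (w2 k m a c)).val - (f (w2 l m b c)).val + (f (w1 k a)).val + (f (w1 l b)).val +
      (f (w1 m c)).val := by
    simp only [hD, view_x1_zero, view_x2_zero, view_x3_zero]
  have hk : ∀ v : T d, (∀ t, v + pos t ≠ pos k) → D v = 0 := by
    intro v hv
    have e1 : view (x3 k l m a b c) v = view (x2 l m b c) v := by
      funext t; unfold view x3 x2; rw [if_neg (hv t)]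
    have e2 : view (x2 k l a b) v = view (x1 l b) v := by
      funext t; unfold view x2 x1; rw [if_neg (hv t)]
    have e3 : view (x2 k m a c) v = view (x1 m c) v := by
      funext t; unfold view x2 x1; rw [if_neg (hv t)]
    simp only [hD, e1, e2, e3, view_eq_zero hv, hz, Fin.val_zero]
    push_cast; ring
  have hl : ∀ v : T d, (∀ t, v + pos t ≠ pos l) → D v = 0 := by
    intro v hv
    have e1 : view (x3 k l m a b c) v = view (x2 k m a c) v := by
      funext t; unfold view x3 x2; simp only [if_neg (hv t)]
    have e2 : view (x2 k l a b) v = view (x1 k a) v := by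
      funext t; unfold view x2 x1; simp only [if_neg (hv t)]
    have e3 : view (x2 l m b c) v = view (x1 m c) v := by
      funext t; unfold view x2 x1; rw [if_neg (hv t)]
    simp only [hD, e1, e2, e3, view_eq_zero hv, hz, Fin.val_zero]
    push_cast; ring
  have hm : ∀ v : T d, (∀ t, v + pos t ≠ pos m) → D v = 0 := by
    intro v hv
    have e1 : view (x3 k l m a b c) v = view (x2 k l a b) v := by
      funext t; unfold view x3 x2; simp only [if_neg (hv t)]
    have e2 : view (x2 k m a c) v = view (x1 k a) v := by
      funext t; unfold view x2 x1; simp only [if_neg (hv t)]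
    have e3 : view (x2 l m b c) v = view (x1 l b) v := by
      funext t; unfold view x2 x1; simp only [if_neg (hv t)]
    simp only [hD, e1, e2, e3, view_eq_zero hv, hz, Fin.val_zero]
    push_cast; ring
  have h1 : ∑ v, D v = D 0 := by
    refine Fintype.sum_eq_single 0 fun v hv0 => ?_
    by_cases h1 : ∃ t, v + pos t = pos k
    · obtain ⟨t1, ht1⟩ := h1
      by_cases h2 : ∃ t, v + pos t = pos l
      · obtain ⟨t2, ht2⟩ := h2
        apply hm
        intro t3 ht3
        have h3 := visible hv0 hkl ht1 ht2
        have h4 := visible hv0 hkm ht1 ht3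
        rw [h3] at ht2
        rw [h4] at ht3
        exact hlm (pos_injective (ht2.symm.trans ht3))
      · push Not at h2
        exact hl v h2
    · push Not at h1
      exact hk v h1
  rw [h1, hD0] at hsum
  linarith

/-- Comparison lemma: an observable with zero total on every configuration which vanishes on
patterns with at most two particles vanishes identically. -/
lemma comparison {h : (Nb d → Fin 3) → ℤ} (hnull : ∀ x : T d → Fin 3, ∑ v, h (view x v) = 0)
    (h2 : ∀ w : Nb d → Fin 3, (∃ k l, ∀ u, u ≠ k → u ≠ l → w u = 0) → h w = 0)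
    (w : Nb d → Fin 3) : h w = 0 := by
  have h1 := hnull (Function.extend pos w fun _ => 0)
  rw [Fintype.sum_eq_single 0] at h1
  · have e : view (Function.extend pos w fun _ => 0) 0 = w := by
      funext u
      unfold view
      rw [zero_add, pos_injective.extend_apply]
    rwa [e] at h1
  · intro v hv
    apply h2
    by_cases hex : ∃ t k, v + pos t = pos k
    · obtain ⟨t, k, htk⟩ := hex
      refine ⟨t, neg k, fun u hu1 hu2 => ?_⟩
      unfold view
      apply Function.extend_apply'
      rintro ⟨k', hk'⟩
      by_cases hkk : k = k'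
      · subst hkk
        apply hu1
        apply pos_injective
        exact add_left_cancel (hk'.symm.trans htk.symm)
      · exact hu2 (visible hv hkk htk hk'.symm)
    · push Not at hex
      refine ⟨none, none, fun u _ _ => ?_⟩
      unfold view
      apply Function.extend_apply'
      rintro ⟨k', hk'⟩
      exact hex u k' hk'.symm

/-! ### One-dimensional quotients -/

/-- The one-dimensional rule obtained from a homomorphism onto `ℤ/12`. -/
def quo (f : (Nb d → Fin 3) → Fin 3) (φ : T d →+ ZMod 12) (a b c : Fin 3) : Fin 3 :=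
  f fun u => if φ (pos u) = 0 then b else if φ (pos u) = 1 then c else a

lemma quo_spec {φ : T d →+ ZMod 12} (hφ : ∀ u, φ (pos u) = 0 ∨ φ (pos u) = 1 ∨ φ (pos u) = -1)
    (y : ZMod 12 → Fin 3) (v : T d) : f (view (fun p => y (φ p)) v) = F1 (quo f φ) y (φ v) := by
  unfold F1 quo view
  congr 1
  funext u
  show y (φ (v + pos u)) = _
  rw [map_add]
  rcases hφ u with h | h | h
  · rw [if_pos h, h, add_zero]
  · rw [if_neg (by rw [h]; decide), if_pos h, h]
  · rw [if_neg (by rw [h]; decide), if_neg (by rw [h]; decide), h, sub_eq_add_neg]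

lemma quo_trivial (h : NC12 f)
    (hinj : Function.Injective (fun (x : T d → Fin 3) (v : T d) => f (view x v)))
    {φ : T d →+ ZMod 12} (hφ : ∀ u, φ (pos u) = 0 ∨ φ (pos u) = 1 ∨ φ (pos u) = -1)
    {e : T d} (he : φ e = 1) :
    (∀ a b c, quo f φ a b c = a) ∨ (∀ a b c, quo f φ a b c = b) ∨
      (∀ a b c, quo f φ a b c = c) := by
  have hsurj : ∀ k : ZMod 12, φ ((ZMod.val k) • e) = k := by
    intro k
    rw [map_nsmul, he, nsmul_one, ZMod.natCast_zmod_val]
  have hfib : ∀ g : ZMod 12 → ℤ, 12 * ∑ v : T d, g (φ v) =
      (Fintype.card (T d) : ℤ) * ∑ k, g k := by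
    intro g
    have h1 : ∀ k : ZMod 12, ∑ v : T d, g (φ v) = ∑ v : T d, g (φ v + k) := by
      intro k
      rw [← Equiv.sum_comp (Equiv.addRight ((ZMod.val k) • e)) (fun v : T d => g (φ v))]
      refine Finset.sum_congr rfl fun v _ => ?_
      rw [Equiv.coe_addRight, map_add, hsurj]
    have h2 : ∑ k : ZMod 12, ∑ v : T d, g (φ v) = ∑ k : ZMod 12, ∑ v : T d, g (φ v + k) :=
      Finset.sum_congr rfl fun k _ => h1 k
    rw [Finset.sum_const, Finset.card_univ, ZMod.card, nsmul_eq_mul, Finset.sum_comm] at h2
    have h3 : ∀ v : T d, ∑ k : ZMod 12, g (φ v + k) = ∑ k : ZMod 12, g k := fun v =>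
      Equiv.sum_comp (Equiv.addLeft (φ v)) g
    simp_rw [h3] at h2
    rw [Finset.sum_const, Finset.card_univ, nsmul_eq_mul] at h2
    exact_mod_cast h2
  apply one_dim
  · intro y
    have h1 := h (fun p => y (φ p))
    simp_rw [quo_spec hφ] at h1
    have h2 := hfib (fun k => ((F1 (quo f φ) y k).val : ℤ))
    have h3 := hfib (fun k => ((y k).val : ℤ))
    have h4 : (Fintype.card (T d) : ℤ) ≠ 0 := by exact_mod_cast Fintype.card_ne_zero
    have h5 : (Fintype.card (T d) : ℤ) * ∑ k, ((F1 (quo f φ) y k).val : ℤ) =
        (Fintype.card (T d) : ℤ) * ∑ k, ((y k).val : ℤ) := by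
      rw [← h2, ← h3, h1]
    exact mul_left_cancel₀ h4 h5
  · intro y y' hyy
    have h1 : (fun p => y (φ p)) = fun p => y' (φ p) := by
      apply hinj
      funext v
      simp only [quo_spec hφ, hyy]
    funext k
    have := congrFun h1 ((ZMod.val k) • e)
    simpa only [hsurj] using this

/-- injectivity on the torus of side 12 -/
def Inj12 (f : (Nb d → Fin 3) → Fin 3) : Prop :=
  Function.Injective (fun (x : T d → Fin 3) (v : T d) => f (view x v))

/-- evaluation homomorphism -/
def ev (i : Fin d) : T d →+ ZMod 12 := Pi.evalAddMonoidHom (fun _ : Fin d => ZMod 12) i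

lemma ev_apply (i : Fin d) (p : T d) : ev i p = p i := rfl

lemma ev_triv (h : NC12 f) (hinj : Inj12 f) (i : Fin d) :
    (∀ a b c, quo f (ev i) a b c = a) ∨ (∀ a b c, quo f (ev i) a b c = b) ∨
      (∀ a b c, quo f (ev i) a b c = c) := by
  refine quo_trivial h hinj (fun u => pos_values' u i) (e := pos (some (i, true))) ?_
  rw [ev_apply, pos_apply_true, if_pos rfl]

lemma quo_ev_right (i : Fin d) (c : Fin 3) : quo f (ev i) 0 0 c = f (w1 (some (i, true)) c) := by
  unfold quo w1
  congr 1
  funext u
  rw [ev_apply]
  rcases pos_values u i with h | h | h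
  · rw [if_pos h.1, if_neg h.2.1]
  · rw [if_neg (by rw [h.1]; decide), if_pos h.1, if_pos h.2]
  · rw [if_neg (by rw [h.1]; decide), if_neg (by rw [h.1]; decide), if_neg (by rw [h.2]; simp)]

lemma quo_ev_left (i : Fin d) (a : Fin 3) : quo f (ev i) a 0 0 = f (w1 (some (i, false)) a) := by
  unfold quo w1
  congr 1
  funext u
  rw [ev_apply]
  rcases pos_values u i with h | h | h
  · rw [if_pos h.1, if_neg h.2.2]
  · rw [if_neg (by rw [h.1]; decide), if_pos h.1, if_neg (by rw [h.2]; simp)]
  · rw [if_neg (by rw [h.1]; decide), if_neg (by rw [h.1]; decide), if_pos h.2]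

lemma single_dichotomy (h : NC12 f) (hinj : Inj12 f) {u : Nb d} (hu : u ≠ none) :
    (∀ a, f (w1 u a) = a) ∨ (∀ a, f (w1 u a) = 0) := by
  rcases u with _ | ⟨i, b⟩
  · exact absurd rfl hu
  rcases ev_triv h hinj i with h1 | h1 | h1 <;> cases b
  · left; intro a; rw [← quo_ev_left (f := f), h1]
  · right; intro a; rw [← quo_ev_right (f := f), h1]
  · right; intro a; rw [← quo_ev_left (f := f), h1]
  · right; intro a; rw [← quo_ev_right (f := f), h1]
  · right; intro a; rw [← quo_ev_left (f := f), h1]
  · left; intro a; rw [← quo_ev_right (f := f), h1]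

lemma singles (h : NC12 f) (hinj : Inj12 f) :
    ∃ s : Nb d, ∀ u a, f (w1 u a) = if u = s then a else 0 := by
  by_cases hex : ∃ s : Nb d, s ≠ none ∧ ∀ a, f (w1 s a) = a
  · obtain ⟨s, hs, hsa⟩ := hex
    refine ⟨s, fun u a => ?_⟩
    by_cases hu : u = s
    · rw [if_pos hu, hu, hsa]
    · rw [if_neg hu]
      have h1 := nc1 h a
      have h2 : ((f (w1 s a)).val : ℤ) + (f (w1 u a)).val ≤ ∑ u : Nb d, ((f (w1 u a)).val : ℤ) := by
        rw [← Finset.sum_pair (f := fun t => ((f (w1 t a)).val : ℤ)) (Ne.symm hu)]
        exact Finset.sum_le_sum_of_subset_of_nonneg (Finset.subset_univ _)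
          (fun _ _ _ => Int.natCast_nonneg _)
      rw [h1, hsa] at h2
      apply Fin.ext
      have : ((f (w1 u a)).val : ℤ) ≤ 0 := by linarith
      simpa using this
  · push Not at hex
    have h0 : ∀ u : Nb d, u ≠ none → ∀ a, f (w1 u a) = 0 := by
      intro u hu
      rcases single_dichotomy h hinj hu with h1 | h1
      · obtain ⟨a, ha⟩ := hex u hu
        exact absurd (h1 a) ha
      · exact h1
    refine ⟨none, fun u a => ?_⟩
    by_cases hu : u = none
    · rw [if_pos hu, hu]
      have h1 := nc1 h a
      rw [Fintype.sum_eq_single (none : Nb d) (fun u hu => by rw [h0 u hu a]; rfl)] at h1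
      exact Fin.ext (by exact_mod_cast h1)
    · rw [if_neg hu, h0 u hu a]

/-- The sign of a neighbour and the associated homomorphism. -/
def sg (b : Bool) : ZMod 12 := if b then 1 else -1

lemma pos_some (i : Fin d) (b : Bool) (j : Fin d) :
    pos (some (i, b)) j = if j = i then sg b else 0 := by
  cases b
  · rw [pos_apply_false]; rfl
  · rw [pos_apply_true]; rfl

/-- the homomorphism `p ↦ σ pᵢ + τ pⱼ` -/
def ev2 (i j : Fin d) (b c : Bool) : T d →+ ZMod 12 :=
  (AddMonoidHom.mulLeft (sg b)).comp (ev i) + (AddMonoidHom.mulLeft (sg c)).comp (ev j)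

lemma ev2_apply (i j : Fin d) (b c : Bool) (p : T d) : ev2 i j b c p = sg b * p i + sg c * p j :=
  rfl

lemma diag (h : NC12 f) (hinj : Inj12 f) {i j : Fin d} (hij : i ≠ j) (b c : Bool) :
    f (w2 (some (i, b)) (some (j, c)) 2 2) = 0 ∨ f (w2 (some (i, b)) (some (j, c)) 2 2) = 2 := by
  have hji : j ≠ i := hij.symm
  have hv : ∀ u : Nb d, (ev2 i j b c (pos u) = 0 ∧ u ≠ some (i, b) ∧ u ≠ some (j, c)) ∨
      (ev2 i j b c (pos u) = 1 ∧ (u = some (i, b) ∨ u = some (j, c))) ∨
      (ev2 i j b c (pos u) = -1 ∧ u ≠ some (i, b) ∧ u ≠ some (j, c)) := by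
    intro u
    rw [ev2_apply]
    rcases u with _ | ⟨k, e⟩
    · left
      exact ⟨by rw [pos_none]; simp, by simp, by simp⟩
    · simp only [pos_some]
      by_cases hk : i = k
      · subst hk
        rw [if_pos rfl, if_neg hji, mul_zero, add_zero]
        cases b <;> cases e
        · right; left; exact ⟨by decide, Or.inl rfl⟩
        · right; right; exact ⟨by decide, by simp, by simp [hij]⟩
        · right; right; exact ⟨by decide, by simp, by simp [hij]⟩
        · right; left; exact ⟨by decide, Or.inl rfl⟩
      · rw [if_neg hk, mul_zero, zero_add]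
        by_cases hk2 : j = k
        · subst hk2
          rw [if_pos rfl]
          cases c <;> cases e
          · right; left; exact ⟨by decide, Or.inr rfl⟩
          · right; right; exact ⟨by decide, by simp [hji], by simp⟩
          · right; right; exact ⟨by decide, by simp [hji], by simp⟩
          · right; left; exact ⟨by decide, Or.inr rfl⟩
        · rw [if_neg hk2, mul_zero]
          left
          exact ⟨rfl, by simp [Ne.symm hk], by simp [Ne.symm hk2]⟩
  have hφ : ∀ u, ev2 i j b c (pos u) = 0 ∨ ev2 i j b c (pos u) = 1 ∨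
      ev2 i j b c (pos u) = -1 := by
    intro u
    rcases hv u with h1 | h1 | h1
    · exact Or.inl h1.1
    · exact Or.inr (Or.inl h1.1)
    · exact Or.inr (Or.inr h1.1)
  have he : ev2 i j b c (pos (some (i, b))) = 1 := by
    rcases hv (some (i, b)) with h1 | h1 | h1
    · exact absurd rfl h1.2.1
    · exact h1.1
    · exact absurd rfl h1.2.1
  have hq : quo f (ev2 i j b c) 0 0 2 = f (w2 (some (i, b)) (some (j, c)) 2 2) := by
    unfold quo w2
    congr 1
    funext u
    rcases hv u with h1 | h1 | h1
    · rw [if_pos h1.1, if_neg h1.2.1, if_neg h1.2.2]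
    · rw [if_neg (by rw [h1.1]; decide), if_pos h1.1]
      rcases h1.2 with h2 | h2
      · rw [if_pos h2]
      · by_cases h3 : u = some (i, b)
        · rw [if_pos h3]
        · rw [if_neg h3, if_pos h2]
    · rw [if_neg (by rw [h1.1]; decide), if_neg (by rw [h1.1]; decide), if_neg h1.2.1,
        if_neg h1.2.2]
  rw [← hq]
  rcases quo_trivial h hinj hφ he with h1 | h1 | h1
  · left; exact h1 0 0 2
  · left; exact h1 0 0 2
  · right; exact h1 0 0 2

lemma diag' (h : NC12 f) (hinj : Inj12 f) {u v : Nb d} (hu : u ≠ none) (hv : v ≠ none)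
    (huv : v ≠ u) (huv' : v ≠ neg u) : f (w2 u v 2 2) = 0 ∨ f (w2 u v 2 2) = 2 := by
  rcases u with _ | ⟨i, b⟩
  · exact absurd rfl hu
  rcases v with _ | ⟨j, c⟩
  · exact absurd rfl hv
  apply diag h hinj
  rintro rfl
  cases b <;> cases c
  · exact huv rfl
  · exact huv' rfl
  · exact huv' rfl
  · exact huv rfl

/-- No interaction between the cell `s` towards which everything moves and another cell. -/
lemma caseB (h : NC12 f) (hinj : Inj12 f) {u : Nb d} (hs : ∀ t a, f (w1 t a) = if t = u then a else 0)
    (hu : u ≠ none) {v : Nb d} (hv : v ≠ none) (huv : v ≠ u) (huv' : v ≠ neg u) (a b : Fin 3) :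
    ((f (w2 u v a b)).val : ℤ) = a.val := by
  have hnu : neg u ≠ u := neg_ne_self hu
  have hnv : neg v ≠ v := neg_ne_self hv
  have hnvu : neg v ≠ u := fun h1 => huv' (by rw [← h1, neg_neg'])
  have hnuv : neg u ≠ v := fun h1 => huv' h1.symm
  have hnvnu : neg v ≠ neg u := fun h1 => huv (neg_inj h1)
  have su : ∀ a, ((f (w1 u a)).val : ℤ) = a.val := fun a => by rw [hs, if_pos rfl]
  have s0 : ∀ {t : Nb d}, t ≠ u → ∀ a, ((f (w1 t a)).val : ℤ) = 0 := fun ht a => by
    rw [hs, if_neg ht]; rfl
  have n1 : ∀ a b, psi f u v a b + psi f (neg v) (neg u) a b = 0 := nc2 h huv.symm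
  have n2 : ∀ a b, psi f u (neg v) a b + psi f v (neg u) a b = 0 := fun a b => by
    have := nc2 h hnvu.symm a b
    rwa [neg_neg'] at this
  have n3 : ∀ a b, psi f u (neg u) a b = 0 := fun a b => by
    have := nc2 h hnu.symm a b
    rw [neg_neg'] at this
    linarith
  have n4 : ∀ a b, psi f v (neg v) a b = 0 := fun a b => by
    have := nc2 h hnv.symm a b
    rw [neg_neg'] at this
    linarith
  have q1 : ∀ a b, ((f (w2 (neg v) (neg u) a b)).val : ℤ) = a.val - (f (w2 u v a b)).val := by
    intro a b
    have := n1 a b
    simp only [psi, su, s0 hnvu, s0 hnu, s0 huv] at this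
    linarith
  have q2 : ∀ a b, ((f (w2 v (neg u) a b)).val : ℤ) = a.val - (f (w2 u (neg v) a b)).val := by
    intro a b
    have := n2 a b
    simp only [psi, su, s0 hnvu, s0 hnu, s0 huv] at this
    linarith
  have q3 : ∀ a c, ((f (w2 u (neg u) a c)).val : ℤ) = a.val := by
    intro a b
    have := n3 a b
    simp only [psi, su, s0 hnu] at this
    linarith
  have q4 : ∀ a c, ((f (w2 v (neg v) a c)).val : ℤ) = 0 := by
    intro a b
    have := n4 a b
    simp only [psi, s0 hnvu, s0 huv] at this
    linarith
  have q5 : ∀ c e, ((f (w2 (neg u) (neg v) c e)).val : ℤ) = e.val - (f (w2 u v e c)).val := by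
    intro c e
    rw [w2_comm hnvnu.symm, q1]
  -- three-cell patterns
  have t1 : ∀ c e, ((f (w2 u (neg v) 2 e)).val : ℤ) + (e.val - (f (w2 u v e c)).val) ≤ 2 := by
    intro c e
    have := nc3 h hnu.symm hnvu.symm hnvnu.symm 2 c e
    rw [q3, q5, su, s0 hnu, s0 hnvu] at this
    have h1 := (f (w3 u (neg u) (neg v) 2 c e)).isLt
    have h2 : ((2 : Fin 3).val : ℤ) = 2 := rfl
    omega
  have t2 : ∀ b c, ((f (w2 u v 2 b)).val : ℤ) + (b.val - (f (w2 u (neg v) b c)).val) ≤ 2 := by
    intro b c
    have := nc3 h huv.symm hnu.symm hnuv.symm 2 b c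
    rw [q3, q2, su, s0 hnu, s0 huv] at this
    have h1 := (f (w3 u v (neg u) 2 b c)).isLt
    have h2 : ((2 : Fin 3).val : ℤ) = 2 := rfl
    omega
  have t3 : 2 ≤ ((f (w2 u v 2 2)).val : ℤ) + (f (w2 u (neg v) 2 2)).val := by
    have := nc3 h huv.symm hnvu.symm hnv.symm 2 2 2
    rw [q4, su, s0 huv, s0 hnvu] at this
    have h1 := Int.natCast_nonneg (f (w3 u v (neg v) 2 2 2)).val
    have h2 : ((2 : Fin 3).val : ℤ) = 2 := rfl
    omega
  have t4 : ((f (w2 u v 2 2)).val : ℤ) = 0 ∨ ((f (w2 u v 2 2)).val : ℤ) = 2 := by
    rcases diag' h hinj hu hv huv huv' with h1 | h1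
    · left; rw [h1]; rfl
    · right; rw [h1]; rfl
  have p1 : ∀ a b, ((f (w2 u v a b)).val : ℤ) ≤ a.val := fun a b => by
    have := q1 a b
    have h1 := Int.natCast_nonneg (f (w2 (neg v) (neg u) a b)).val
    omega
  have p2 : ∀ a b, ((f (w2 u (neg v) a b)).val : ℤ) ≤ a.val := fun a b => by
    have := q2 a b
    have h1 := Int.natCast_nonneg (f (w2 v (neg u) a b)).val
    omega
  have h2v : ((2 : Fin 3).val : ℤ) = 2 := rfl
  have r1 : ((f (w2 u (neg v) 2 2)).val : ℤ) = 2 := by
    have a1 := t1 2 2
    have a2 := t2 2 2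
    have a3 := p1 2 2
    have a4 := p2 2 2
    omega
  have r2 : ∀ c, ((f (w2 u v 2 c)).val : ℤ) = 2 := by
    intro c
    have a1 := t1 c 2
    have a3 := p1 2 c
    omega
  have r3 : ∀ b c, ((f (w2 u (neg v) b c)).val : ℤ) = b.val := by
    intro b c
    have a1 := t2 b c
    have a2 := r2 b
    have a3 := p2 b c
    omega
  have a1 := t1 b a
  have a2 := r3 2 a
  have a3 := p1 a b
  omega

/-- No interaction between two neighbours different from the centre. -/
lemma no_interaction (h : NC12 f) (hinj : Inj12 f) {s : Nb d}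
    (hs : ∀ t a, f (w1 t a) = if t = s then a else 0) {u v : Nb d} (hu : u ≠ none) (hv : v ≠ none)
    (huv : v ≠ u) (a b : Fin 3) : psi f u v a b = 0 := by
  have key : ∀ {u v : Nb d}, u ≠ none → v ≠ none → v ≠ u → v ≠ neg u → s = u →
      ∀ a b, psi f u v a b = 0 := by
    intro u v hu hv huv huv' hsu a b
    subst hsu
    have h1 := caseB h hinj hs hu hv huv huv' a b
    unfold psi
    rw [h1, hs, if_pos rfl, hs, if_neg huv]
    simp
  by_cases huv' : v = neg u
  · subst huv'
    have h1 := nc2 h huv.symm a b
    rw [neg_neg'] at h1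
    linarith
  have hnuv : neg u ≠ v := fun h1 => huv' h1.symm
  have hnvu : neg v ≠ u := fun h1 => huv' (by rw [← h1, neg_neg'])
  have hnvnu : neg v ≠ neg u := fun h1 => huv (neg_inj h1)
  by_cases h1 : s = u
  · exact key hu hv huv huv' h1 a b
  by_cases h2 : s = v
  · rw [psi_comm huv.symm]
    exact key hv hu huv.symm (fun h3 => hnvu h3.symm) h2 b a
  by_cases h3 : s = neg v
  · have h4 := nc2 h huv.symm a b
    have h5 := key (neg_ne_none hv) (neg_ne_none hu) hnvnu.symm
      (fun h6 => by rw [neg_neg'] at h6; exact hnuv h6) h3 a b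
    linarith
  by_cases h4 : s = neg u
  · have h5 := nc2 h huv.symm a b
    have h6 := key (neg_ne_none hu) (neg_ne_none hv) hnvnu
      (fun h6 => by rw [neg_neg'] at h6; exact hnvu h6) h4 b a
    rw [psi_comm hnvnu] at h5
    linarith
  · have h5 := nc2 h huv.symm a b
    have e1 : psi f u v a b = (f (w2 u v a b)).val := by
      unfold psi
      rw [hs, hs, if_neg (Ne.symm h1), if_neg (Ne.symm h2)]; simp
    have e2 : psi f (neg v) (neg u) a b = (f (w2 (neg v) (neg u) a b)).val := by
      unfold psi
      rw [hs, hs, if_neg (Ne.symm h3), if_neg (Ne.symm h4)]; simp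
    rw [e1] at h5 ⊢
    rw [e2] at h5
    have := Int.natCast_nonneg (f (w2 (neg v) (neg u) a b)).val
    have := Int.natCast_nonneg (f (w2 u v a b)).val
    omega

lemma w2_zero_right (k l : Nb d) (a : Fin 3) : w2 k l a 0 = w1 k a := by
  funext u; unfold w2 w1
  by_cases h : u = k
  · rw [if_pos h, if_pos h]
  · rw [if_neg h, if_neg h]; simp

lemma w2_zero_left {k l : Nb d} (h : k ≠ l) (b : Fin 3) : w2 k l 0 b = w1 l b := by
  rw [w2_comm h, w2_zero_right]

lemma w1_zero (k : Nb d) : w1 k 0 = fun _ => 0 := by
  funext u; unfold w1; simp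

/-- Interaction of the centre with `+eᵢ`. -/
def A (f : (Nb d → Fin 3) → Fin 3) (i : Fin d) (a b : Fin 3) : ℤ :=
  psi f none (some (i, true)) a b

lemma A_zero_right (h : NC12 f) (i : Fin d) (a : Fin 3) : A f i a 0 = 0 := by
  unfold A psi
  rw [w2_zero_right, w1_zero, f_zero h]; simp

lemma A_zero_left (h : NC12 f) (i : Fin d) (b : Fin 3) : A f i 0 b = 0 := by
  unfold A psi
  rw [w2_zero_left (by simp), w1_zero, f_zero h]; simp

/-- The rule in flow form. -/
lemma flow_form (h : NC12 f) (hinj : Inj12 f) {s : Nb d}
    (hs : ∀ t a, f (w1 t a) = if t = s then a else 0) (w : Nb d → Fin 3) :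
    ((f w).val : ℤ) = (w s).val + ∑ i : Fin d, (A f i (w none) (w (some (i, true))) -
      A f i (w (some (i, false))) (w none)) := by
  set g : (Nb d → Fin 3) → ℤ := fun w => (w s).val + ∑ i : Fin d,
    (A f i (w none) (w (some (i, true))) - A f i (w (some (i, false))) (w none)) with hg
  -- values of `g` on small patterns
  have g1 : ∀ k a, g (w1 k a) = ((f (w1 k a)).val : ℤ) := by
    intro k a
    have e : ∀ i : Fin d, A f i (w1 k a none) (w1 k a (some (i, true))) -
        A f i (w1 k a (some (i, false))) (w1 k a none) = 0 := by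
      intro i
      by_cases hk : none = k
      · subst hk
        have e1 : w1 (none : Nb d) a (some (i, true)) = 0 := by simp [w1]
        have e2 : w1 (none : Nb d) a (some (i, false)) = 0 := by simp [w1]
        rw [e1, e2, A_zero_right h, A_zero_left h, sub_zero]
      · have e1 : w1 k a none = 0 := by unfold w1; rw [if_neg hk]
        rw [e1, A_zero_left h, A_zero_right h, sub_zero]
    simp only [hg, e, Finset.sum_const_zero, add_zero]
    rw [hs]
    unfold w1
    by_cases hks : k = s
    · rw [if_pos hks.symm, if_pos hks]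
    · rw [if_neg (Ne.symm hks), if_neg hks]
  have hw2s : ∀ (k l : Nb d) (a b : Fin 3), k ≠ l → ((w2 k l a b s).val : ℤ) =
      (f (w1 k a)).val + (f (w1 l b)).val := by
    intro k l a b hkl
    rw [hs, hs]
    unfold w2
    by_cases h1 : s = k
    · subst h1
      rw [if_pos rfl, if_pos rfl, if_neg hkl.symm]; simp
    · rw [if_neg h1, if_neg (Ne.symm h1)]
      by_cases h2 : s = l
      · subst h2; rw [if_pos rfl]; simp
      · rw [if_neg h2, if_neg (Ne.symm h2)]; simp
  -- centre and another cell
  have gc : ∀ (l : Nb d) (a b : Fin 3), l ≠ none → g (w2 none l a b) =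
      ((f (w2 none l a b)).val : ℤ) := by
    intro l a b hl
    rcases l with _ | ⟨j, c⟩
    · exact absurd rfl hl
    have hnone : w2 (none : Nb d) (some (j, c)) a b none = a := by simp [w2]
    have hsum : ∑ i : Fin d, (A f i (w2 none (some (j, c)) a b none)
        (w2 none (some (j, c)) a b (some (i, true))) -
        A f i (w2 none (some (j, c)) a b (some (i, false))) (w2 none (some (j, c)) a b none)) =
        psi f none (some (j, c)) a b := by
      rw [Fintype.sum_eq_single j]
      · rw [hnone]
        cases c
        · have e1 : w2 (none : Nb d) (some (j, false)) a b (some (j, true)) = 0 := by simp [w2]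
          have e2 : w2 (none : Nb d) (some (j, false)) a b (some (j, false)) = b := by simp [w2]
          rw [e1, e2, A_zero_right h]
          have h1 := nc2 h (k := none) (l := some (j, false)) (by simp) a b
          have h2 : psi f (neg (some (j, false))) (neg none) a b = A f j b a := by
            have e3 : neg (some (j, false) : Nb d) = some (j, true) := rfl
            rw [e3, neg_none, psi_comm (by simp)]
            rfl
          rw [h2] at h1
          linarith
        · have e1 : w2 (none : Nb d) (some (j, true)) a b (some (j, true)) = b := by simp [w2]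
          have e2 : w2 (none : Nb d) (some (j, true)) a b (some (j, false)) = 0 := by simp [w2]
          rw [e1, e2, A_zero_left h, sub_zero]
          rfl
      · intro i hij
        have e1 : w2 (none : Nb d) (some (j, c)) a b (some (i, true)) = 0 := by
          simp [w2, hij]
        have e2 : w2 (none : Nb d) (some (j, c)) a b (some (i, false)) = 0 := by
          simp [w2, hij]
        rw [e1, e2, A_zero_right h, A_zero_left h, sub_zero]
    simp only [hg]
    rw [hsum, hw2s _ _ _ _ (by simp)]
    unfold psi
    ring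
  have g2 : ∀ (k l : Nb d) (a b : Fin 3), k ≠ l → g (w2 k l a b) =
      ((f (w2 k l a b)).val : ℤ) := by
    intro k l a b hkl
    by_cases hk : k = none
    · subst hk; exact gc l a b hkl.symm
    by_cases hl : l = none
    · subst hl; rw [w2_comm hkl]; exact gc k b a hkl
    have hnone : w2 k l a b none = 0 := by
      unfold w2; rw [if_neg (Ne.symm hk), if_neg (Ne.symm hl)]
    have hsum : ∑ i : Fin d, (A f i (w2 k l a b none) (w2 k l a b (some (i, true))) -
        A f i (w2 k l a b (some (i, false))) (w2 k l a b none)) = 0 := by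
      refine Finset.sum_eq_zero fun i _ => ?_
      rw [hnone, A_zero_left h, A_zero_right h, sub_zero]
    simp only [hg]
    rw [hsum, hw2s _ _ _ _ hkl]
    have := no_interaction h hinj hs hk hl hkl.symm a b
    unfold psi at this
    linarith
  have hcmp := comparison (h := fun w => ((f w).val : ℤ) - g w) ?_ ?_ w
  · have : ((f w).val : ℤ) = g w := by linarith
    rw [this]
  · intro x
    rw [Finset.sum_sub_distrib, h x]
    simp only [hg]
    rw [Finset.sum_add_distrib, Finset.sum_comm]
    have e1 : ∑ v : T d, ((view x v s).val : ℤ) = ∑ v : T d, ((x v).val : ℤ) :=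
      Equiv.sum_comp (Equiv.addRight (pos s)) (fun v => ((x v).val : ℤ))
    have e2 : ∀ i : Fin d, ∑ v : T d, (A f i (view x v none) (view x v (some (i, true))) -
        A f i (view x v (some (i, false))) (view x v none)) = 0 := by
      intro i
      rw [Finset.sum_sub_distrib, sub_eq_zero]
      rw [← Equiv.sum_comp (Equiv.addRight (pos (some (i, true))))
        (fun v => A f i (view x v (some (i, false))) (view x v none))]
      refine Finset.sum_congr rfl fun v _ => ?_
      have e3 : view x ((Equiv.addRight (pos (some (i, true)))) v) (some (i, false)) =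
          view x v none := by
        unfold view
        congr 1
        rw [Equiv.coe_addRight, pos_none, add_zero, add_assoc]
        have : (some (i, false) : Nb d) = neg (some (i, true)) := rfl
        rw [this, pos_neg, add_neg_cancel, add_zero]
      have e4 : view x ((Equiv.addRight (pos (some (i, true)))) v) none =
          view x v (some (i, true)) := by
        unfold view
        congr 1
        rw [Equiv.coe_addRight, pos_none, add_zero]
      rw [e3, e4]
    simp only [e2, Finset.sum_const_zero, add_zero]
    rw [e1, sub_self]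
  · rintro w ⟨k, l, hkl⟩
    by_cases hk : k = l
    · subst hk
      have e : w = w1 k (w k) := by
        funext u; unfold w1
        by_cases hu : u = k
        · rw [if_pos hu, hu]
        · rw [if_neg hu, hkl u hu hu]
      rw [e]
      show ((f (w1 k (w k))).val : ℤ) - g (w1 k (w k)) = 0
      rw [g1, sub_self]
    · have e : w = w2 k l (w k) (w l) := by
        funext u; unfold w2
        by_cases hu : u = k
        · rw [if_pos hu, hu]
        · rw [if_neg hu]
          by_cases hu' : u = l
          · rw [if_pos hu', hu']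
          · rw [if_neg hu', hkl u hu hu']
      rw [e]
      show ((f (w2 k l (w k) (w l))).val : ℤ) - g (w2 k l (w k) (w l)) = 0
      rw [g2 _ _ _ _ hk, sub_self]

/-- The local rule is a projection. -/
lemma rule_eq (h : NC12 f) (hinj : Inj12 f) : ∃ s : Nb d, ∀ w, f w = w s := by
  obtain ⟨s, hs⟩ := singles h hinj
  have hflow := flow_form h hinj hs
  have hA : ∀ (i : Fin d) (a b : Fin 3), A f i a b = 0 := by
    intro i
    -- the pattern of the quotient
    set W : Fin 3 → Fin 3 → Fin 3 → Nb d → Fin 3 := fun a b c u =>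
      if ev i (pos u) = 0 then b else if ev i (pos u) = 1 then c else a with hW
    have hq : ∀ a b c, quo f (ev i) a b c = f (W a b c) := fun a b c => rfl
    have hWn : ∀ a b c, W a b c none = b := by
      intro a b c
      simp only [hW]
      rw [if_pos (by rw [pos_none, map_zero])]
    have hWt : ∀ a b c, W a b c (some (i, true)) = c := by
      intro a b c
      simp only [hW, ev_apply, pos_apply_true, if_true]
      rw [if_neg (by decide)]
    have hWf : ∀ a b c, W a b c (some (i, false)) = a := by
      intro a b c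
      simp only [hW, ev_apply, pos_apply_false, if_true]
      rw [if_neg (by decide), if_neg (by decide)]
    have hWo : ∀ a b c (j : Fin d) (e : Bool), j ≠ i → W a b c (some (j, e)) = b := by
      intro a b c j e hj
      simp only [hW, ev_apply, pos_some, if_neg (Ne.symm hj), if_true]
    have hval : ∀ a b c, ((quo f (ev i) a b c).val : ℤ) = (W a b c s).val +
        (A f i b c - A f i a b) := by
      intro a b c
      rw [hq, hflow, Fintype.sum_eq_single i]
      · rw [hWn, hWt, hWf]
      · intro j hj
        rw [hWn, hWo _ _ _ _ _ hj, hWo _ _ _ _ _ hj, sub_self]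
    have h1 := quo_ev_right (f := f) i 1
    have h2 := quo_ev_left (f := f) i 1
    rw [hs] at h1 h2
    have hflat : ∀ a b c, A f i b c = A f i a b := by
      rcases ev_triv h hinj i with ht | ht | ht
      · -- everything comes from the left
        rw [ht] at h2
        have hsi : (some (i, false) : Nb d) = s := by
          by_contra hne
          rw [if_neg hne] at h2
          exact absurd h2 (by decide)
        intro a b c
        have := hval a b c
        rw [ht, ← hsi, hWf] at this
        linarith
      · rw [ht] at h1 h2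
        have hs1 : (some (i, true) : Nb d) ≠ s := by
          intro he
          rw [if_pos he] at h1
          exact absurd h1 (by decide)
        have hs2 : (some (i, false) : Nb d) ≠ s := by
          intro he
          rw [if_pos he] at h2
          exact absurd h2 (by decide)
        have hWs : ∀ a b c, W a b c s = b := by
          intro a b c
          rcases s with _ | ⟨j, e⟩
          · exact hWn a b c
          · apply hWo
            rintro rfl
            cases e
            · exact hs2 rfl
            · exact hs1 rfl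
        intro a b c
        have := hval a b c
        rw [ht, hWs] at this
        linarith
      · rw [ht] at h1
        have hsi : (some (i, true) : Nb d) = s := by
          by_contra hne
          rw [if_neg hne] at h1
          exact absurd h1 (by decide)
        intro a b c
        have := hval a b c
        rw [ht, ← hsi, hWt] at this
        linarith
    intro a b
    rw [← hflat a b 0, A_zero_right h]
  refine ⟨s, fun w => ?_⟩
  have h1 := hflow w
  simp only [hA, sub_self, Finset.sum_const_zero, add_zero] at h1
  exact Fin.ext (by exact_mod_cast h1)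

end rule

/-- **Main result (Q1, all dimensions).** For every `d`, every reversible number-conserving
cellular automaton on `ℤ^d` with states `{0,1,2}` and the von Neumann neighbourhood is the identity
or a unit shift. -/
theorem result (d : ℕ) (f : (Nb d → Fin 3) → Fin 3) (hNC : NumberConserving f)
    (hrev : Reversible f) : Trivial f := by
  have h : NC12 f := by
    intro x
    have := hNC 12 x
    exact_mod_cast this
  have hinj : Inj12 f := by
    intro x y hxy
    -- lift to periodic configurations of `ℤ^d`
    set c : (Fin d → ℤ) → T d := fun v i => (v i : ZMod 12) with hc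
    have hoff : ∀ (v : Fin d → ℤ) (u : Nb d), c (v + off ℤ u) = c v + pos u := by
      intro v u
      funext i
      rcases u with _ | ⟨j, b⟩
      · simp [hc, off, pos]
      · cases b
        · by_cases hij : i = j
          · subst hij; simp [hc, off, pos]
          · simp [hc, off, pos, hij]
        · by_cases hij : i = j
          · subst hij; simp [hc, off, pos]
          · simp [hc, off, pos, hij]
    have hlift : ∀ (x : T d → Fin 3) (v : Fin d → ℤ), glob f ℤ (fun p => x (c p)) v =
        f (view x (c v)) := by
      intro x v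
      unfold glob view
      congr 1
      funext u
      show x (c (v + off ℤ u)) = _
      rw [hoff]
    have h1 : (fun p => x (c p)) = fun p => y (c p) := by
      apply hrev.1
      funext v
      rw [hlift, hlift]
      exact congrFun hxy (c v)
    funext v
    have h2 := congrFun h1 (fun i => ((ZMod.val (v i) : ℕ) : ℤ))
    have h3 : c (fun i => ((ZMod.val (v i) : ℕ) : ℤ)) = v := by
      funext i
      simp [hc]
    simpa only [h3] using h2
  obtain ⟨s, hs⟩ := rule_eq h hinj
  exact ⟨s, fun x v => hs _⟩

end Pool.Agent.Results.MP_944d6d_mp.AllDimensions
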